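import Mathlib
import Pool.Agent.KS6_49.TC.Conn

/-!
# `k`-connectivity is not definable in `TC^1_0`, for every `k ≥ 2`

More generally, for every `k ≥ 1`, no sentence of `TC^1_0` separates the `2k`-connected finite
graphs from the finite graphs of connectivity exactly `k`, not even among the large
`(5k-1)`-regular graphs.
-/

set_option autoImplicit false

namespace Pool.Agent.Results.MP_c527bb_lc.KConnUndefinable

open Pool.Agent.KS6_49.TC

theorem le_card {n k : ℕ} {G : SimpleGraph (Fin n)} (h : Good k G) : k ≤ n := by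
  by_contra hlt
  obtain ⟨v, hv⟩ := h.far Finset.univ (by rw [Finset.card_univ, Fintype.card_fin]; omega)
  exact hv v (Finset.mem_univ v) (Reach.refl k)

theorem preconnected {n k : ℕ} {G : SimpleGraph (Fin n)} (h : Good k G) : G.Preconnected := by
  intro x y
  have h1 := h.even x y
  induction h1 with
  | single h2 =>
    obtain ⟨m, h3, h4⟩ := h2
    exact h3.reachable.trans h4.reachable
  | tail _ h2 ih =>
    obtain ⟨m, h3, h4⟩ := h2
    exact ih.trans (h3.reachable.trans h4.reachable)

theorem list_main (k : ℕ) (L : List (Fm 0)) : ∃ g : ℕ, ∀ (V V' : Type) (G : SimpleGraph V)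
    (G' : SimpleGraph V'), Good g G → Good g G' →
      ∀ ψ ∈ L, (sat (Bl G k) ψ ![] ↔ sat (Bl G' k) ψ ![]) := by
  induction L with
  | nil => exact ⟨0, fun _ _ _ _ _ _ ψ h => by simp at h⟩
  | cons φ L ih =>
    obtain ⟨g1, h1⟩ := ih
    obtain ⟨g2, h2⟩ := bl_main k φ
    refine ⟨max g1 g2, fun V V' G G' hG hG' ψ hψ => ?_⟩
    rcases List.mem_cons.1 hψ with rfl | hψ
    · exact h2 V V' G G' (Logic.Good_mono hG (by omega)) (Logic.Good_mono hG' (by omega))
    · exact h1 V V' G G' (Logic.Good_mono hG (by omega)) (Logic.Good_mono hG' (by omega)) ψ hψ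

/-- **For every `k ≥ 2` no sentence of `TC^1_0` defines the `k`-connected finite graphs.** More
precisely, for every `k ≥ 1`, every finite list `L` of sentences of `TC^1_0` and every `N` there
are finite `(5k-1)`-regular graphs `G`, `H` with at least `N` vertices such that `G` is
`2k`-connected, `H` is `k`-connected but not `(k+1)`-connected, and all sentences of `L` have the
same truth value in `G` and in `H`. -/
theorem result :
    (∀ k : ℕ, 2 ≤ k → ¬ ∃ ψ : Fm 0, ∀ (n : ℕ) (G : SimpleGraph (Fin n)),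
      sat G ψ ![] ↔ KConn k G) ∧
    ∀ (k : ℕ), 1 ≤ k → ∀ (L : List (Fm 0)) (N : ℕ),
      ∃ (n m : ℕ) (G : SimpleGraph (Fin n)) (H : SimpleGraph (Fin m)),
        N ≤ n ∧ N ≤ m ∧
        (∀ v, (G.neighborSet v).ncard = 5 * k - 1) ∧ (∀ v, (H.neighborSet v).ncard = 5 * k - 1) ∧
        KConn (2 * k) G ∧ KConn k H ∧ ¬ KConn (k + 1) H ∧
        ∀ ψ ∈ L, (sat G ψ ![] ↔ sat H ψ ![]) := by
  have key : ∀ (k : ℕ), 1 ≤ k → ∀ (L : List (Fm 0)) (N : ℕ),
      ∃ (n m : ℕ) (G : SimpleGraph (Fin n)) (H : SimpleGraph (Fin m)),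
        N ≤ n ∧ N ≤ m ∧
        (∀ v, (G.neighborSet v).ncard = 5 * k - 1) ∧ (∀ v, (H.neighborSet v).ncard = 5 * k - 1) ∧
        KConn (2 * k) G ∧ KConn k H ∧ ¬ KConn (k + 1) H ∧
        ∀ ψ ∈ L, (sat G ψ ![] ↔ sat H ψ ![]) := by
    intro k hk L N
    obtain ⟨g, hg⟩ := list_main k L
    obtain ⟨n, G, hG, hG2⟩ := exists_twoConn (g + N + 3)
    obtain ⟨m, H, hH, hH2⟩ := exists_not_twoConn (g + N + 3)
    have hn := le_card hG
    have hm := le_card hH
    have tr : ∀ {n : ℕ} (G : SimpleGraph (Fin n)), N + 3 ≤ n →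
        (∀ v, (G.neighborSet v).Finite ∧ (G.neighborSet v).ncard = 4) →
        ∃ (n' : ℕ) (G' : SimpleGraph (Fin n')) (e : Fin n × Fin k ≃ Fin n'),
          (∀ x y, G'.Adj (e x) (e y) ↔ (Bl G k).Adj x y) ∧ N ≤ n' ∧
          (∀ v, (G'.neighborSet v).ncard = 5 * k - 1) ∧
          ∀ ψ : Fm 0, (sat G' ψ ![] ↔ sat (Bl G k) ψ ![]) := by
      intro n G hn hd
      obtain ⟨G', e, he⟩ := to_fin' (Bl G k)
      refine ⟨_, G', e, he, ?_, ?_, ?_⟩
      · rw [Nat.card_prod, Nat.card_eq_fintype_card (α := Fin k), Fintype.card_fin,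
          Nat.card_eq_fintype_card (α := Fin n), Fintype.card_fin]
        nlinarith
      · intro v
        have h1 : G'.neighborSet v = e '' (Bl G k).neighborSet (e.symm v) := by
          ext w
          constructor
          · intro h
            refine ⟨e.symm w, ?_, by simp⟩
            show (Bl G k).Adj (e.symm v) (e.symm w)
            rw [← he, e.apply_symm_apply, e.apply_symm_apply]
            exact h
          · rintro ⟨w', h, rfl⟩
            show G'.Adj v (e w')
            have h2 := (he (e.symm v) w').2 h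
            rwa [e.apply_symm_apply] at h2
        rw [h1, Set.ncard_image_of_injective _ e.injective, bl_deg hd]
        omega
      · intro ψ
        rw [← sat_iso e he ψ ![]]
        have : (fun i => e ((![] : Fin 0 → Fin n × Fin k) i)) = ![] := by
          funext i; exact i.elim0
        rw [this]
    obtain ⟨n', G', e, he, h1, h2, h3⟩ := tr G (by omega) hG.deg
    obtain ⟨m', H', f, hf, h4, h5, h6⟩ := tr H (by omega) hH.deg
    refine ⟨n', m', G', H', h1, h4, h2, h5, ?_, ?_, ?_, ?_⟩
    · exact kconn_iso e he (bl_two hk (by rw [Nat.card_eq_fintype_card, Fintype.card_fin]; omega)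
        (preconnected hG) hG2)
    · exact kconn_iso f hf (bl_conn hk (by rw [Nat.card_eq_fintype_card, Fintype.card_fin]; omega)
        (preconnected hH))
    · intro h
      refine bl_not hk hH2 (kconn_iso f.symm (fun x y => ?_) h)
      rw [← hf, f.apply_symm_apply, f.apply_symm_apply]
    · intro ψ hψ
      rw [h3, h6]
      exact hg _ _ G H (Logic.Good_mono hG (by omega)) (Logic.Good_mono hH (by omega)) ψ hψ
  refine ⟨?_, key⟩
  rintro k hk ⟨ψ, hψ⟩
  obtain ⟨n, m, G, H, -, -, -, -, h1, -, h2, h3⟩ := key (k - 1) (by omega) [ψ] 0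
  have h4 := h3 ψ (by simp)
  rw [hψ, hψ] at h4
  have e1 : k - 1 + 1 = k := by omega
  rw [e1] at h2
  exact h2 (h4.1 (h1.mono (by omega)))

end Pool.Agent.Results.MP_c527bb_lc.KConnUndefinable
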